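import Pool.Agent.Q283.FG.Stm4

/-!
# Project FG (helper283), job UNQ: uniqueness of the twist modulo squares
-/

set_option autoImplicit false

namespace Pool.Agent.Q285.FG

open NumberField IsDedekindDomain
open Pool.Agent.Q283.LQ (Sm)
open Pool.Agent.Q7.LK
open Pool.Agent.Q283.FG

theorem mon_zero_eq {F : Type} [Field F] [NumberField F] {p f : ℕ} (u : Fin f → F) :
    mon u (0 : Fin f → ZMod p) = 1 := by
  unfold mon
  refine Finset.prod_eq_one fun l _ => ?_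
  rw [Pi.zero_apply, ZMod.val_zero, pow_zero]

/-- **UNQ** -/
theorem unq (hB : S_BAS) : S_UNQ := by
  intro F _ _ ζ _ y f u r π g B D0 hD0 k q D D' h h'
  have hD : D ≠ 0 := h.1.ne
  have hD' : D' ≠ 0 := h'.1.ne
  have hx : D' / D ≠ 0 := div_ne_zero hD' hD
  have hq0 : D / D0 ≠ 0 := div_ne_zero hD hD0
  have hdd : D' / D = (D' / D0) * (D / D0)⁻¹ := by
    rw [inv_div, div_mul_div_comm, mul_comm D' D0, mul_div_mul_left _ _ hD0]
  have hxv : ∀ v : HeightOneSpectrum (𝓞 F), ¬ Sm y v → vl 2 v (D' / D) = 0 := by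
    intro v hv
    have h1 := (hB 2 F v).2.2.2.2.1 (D' / D) D hx hD
    rw [div_mul_cancel₀ _ hD, h'.1.ram v hv, h.1.ram v hv] at h1
    exact right_eq_add.1 h1
  have hxl : ∀ v : HeightOneSpectrum (𝓞 F), Sm y v → Lpw 2 v (D' / D) := by
    intro v hv
    rw [hdd]
    exact (hB 2 F v).2.1 _ _ (h'.1.loc v hv) ((hB 2 F v).2.2.2.1 _ (h.1.loc v hv))
  have hxr : ∀ φ : F →+* ℝ, 0 < φ (D' / D) := by
    intro φ
    rw [hdd, map_mul, map_inv₀]
    exact mul_pos (h'.2 φ) (inv_pos.2 (h.2 φ))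
  obtain ⟨c, z, hz⟩ := B.full (D' / D) hx hxv
  have hone : ∀ v : HeightOneSpectrum (𝓞 F), Lpw 2 v (1 : F) := by
    intro v
    have := (hB 2 F v).2.2.1 1 one_ne_zero
    rwa [one_pow] at this
  have hm : mon u c ≠ 0 := by
    unfold mon
    exact Finset.prod_ne_zero_iff.2 fun l _ => pow_ne_zero _ (B.ue l)
  have hz0 : z ≠ 0 := by
    rintro rfl
    rw [zero_pow two_ne_zero] at hz
    exact (mul_ne_zero hx hm) hz
  have hmu : mon u c = (D' / D)⁻¹ * z ^ 2 := by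
    rw [← hz, ← mul_assoc, inv_mul_cancel₀ hx, one_mul]
  have hN : Nr y (mon u c) := by
    refine ⟨⟨hm, fun v hv => ?_⟩, fun φ => ?_⟩
    · rw [hmu]
      exact (hB 2 F v).2.1 _ _ ((hB 2 F v).2.2.2.1 _ (hxl v hv)) ((hB 2 F v).2.2.1 z hz0)
    · rw [hmu, map_mul, map_inv₀, map_pow]
      have h5 : φ z ≠ 0 := (map_ne_zero φ).2 hz0
      have h6 : (0 : ℝ) < (φ z) ^ 2 := by positivity
      exact mul_pos (inv_pos.2 (hxr φ)) h6
  have hu := B.cls 1 one_ne_zero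
  have h1 : Nr y (1 * mon r ((0 : Fin f → ZMod 2), (0 : Fin f → ZMod 2)).1 *
      mon u ((0 : Fin f → ZMod 2), (0 : Fin f → ZMod 2)).2) := by
    rw [mon_zero_eq, mon_zero_eq, one_mul, one_mul]
    refine ⟨⟨one_ne_zero, fun v _ => hone v⟩, fun φ => ?_⟩
    rw [map_one]
    exact one_pos
  have h2 : Nr y (1 * mon r ((0 : Fin f → ZMod 2), c).1 * mon u ((0 : Fin f → ZMod 2), c).2) := by
    rw [mon_zero_eq, one_mul, one_mul]
    exact hN
  have h3 := hu.unique h1 h2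
  have h4 : c = 0 := (congrArg Prod.snd h3).symm
  rw [h4, mon_zero_eq, mul_one] at hz
  refine ⟨z, hz0, ?_⟩
  rw [← hz, mul_div_cancel₀ _ hD]

end Pool.Agent.Q285.FG
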